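import Pool.Agent.Helper63.QP2.St1

/-!
# Project QD (MP_d112a4_gt), PART P, module ITI: induction over the short classes
-/

set_option autoImplicit false

open Filter Topology Matrix Set Metric MeasureTheory
open scoped ComplexConjugate ENNReal

namespace Pool.Agent.Helper64.QP2

open Pool.Agent.Helper63.QP2
open Pool.Agent.Helper35.PM (hs Mat SL IsDiscrete SurfaceGroup Adapted IsQF HolDisc pressureDist
  PressureLE)
open Pool.Agent.Helper20.QD (Fuch cj IsSU D DD SS)
open Pool.Agent.Helper68.QC (nq Bel InvB Intw mob den)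
open Pool.Agent.Helper68.QS (Intw2)
open Pool.Agent.Helper20.QP (Prim Cj TF FD sh ll StI StOP1 StNCL StCEN)
open Pool.Agent.Helper17.QD (Sta cc pre Thk StFPC StOPN)

private theorem pd_self {Γ : Type} [Group Γ] (U : (Γ →* SL) → Ultrafilter ℝ) (ρ : Γ →* SL) :
    pressureDist U ρ ρ ≤ 0 := by
  have h0 : PressureLE U ρ ρ 0 := PressureLE.conj _ _ 1 (fun γ => Or.inl (by simp))
  exact sInf_le h0

theorem pITI (hLLF : Pool.Agent.Helper63.QP2.StLLF) (hSY : Pool.Agent.Helper35.PM.St_SY) :
    Pool.Agent.Helper63.QP2.StITI := by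
  intro g U ε0 ε1 D hε0 hε1 hD hop n
  obtain ⟨hL1, hL2, -, -, -, -⟩ := hLLF
  induction n with
  | zero =>
    intro ε σ ρ κ k hε hle0 hle1 hS hSh
    refine ⟨σ, ρ, κ, k, hS, (pd_self U ρ).trans (zero_le), ?_⟩
    intro α hα
    rw [pow_zero, div_one]
    by_contra hno
    rw [not_le] at hno
    obtain ⟨i, j, hij, -⟩ := hSh (fun _ => α) (fun _ => ⟨hα, hno⟩)
    exact hij (Subsingleton.elim (α := Fin 1) i j)
  | succ n ih =>
    intro ε σ ρ κ k hε hle0 hle1 hS hSh
    by_cases hall : ∀ α, Prim α → ε ≤ ll (σ α)
    · refine ⟨σ, ρ, κ, k, hS, (pd_self U ρ).trans (zero_le), ?_⟩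
      intro α hα
      refine le_trans ?_ (hall α hα)
      apply div_le_self hε.le
      exact one_le_pow₀ one_le_two
    · push Not at hall
      obtain ⟨α, hα, hαε⟩ := hall
      obtain ⟨σ₁, ρ₁, κ₁, k₁, hS₁, hd₁, hα₁, hβ₁⟩ := hop σ ρ κ k α hS hα (hαε.le.trans hle0)
      have hSh₁ : Short σ₁ (ε / 2) n := by
        intro a ha
        have hnc : ∀ i, ¬ Cj α (a i) := by
          intro i hc
          have h1 := hL1 _ σ₁ α (a i) hc
          have h2 := (ha i).2
          linarith
        have hll : ∀ i, ll (σ (a i)) < ε := by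
          intro i
          have h2 := (ha i).2
          have h3 := hβ₁ (a i) (ha i).1 (hnc i) (by linarith)
          linarith
        obtain ⟨i, j, hij, hc⟩ := hSh (Fin.cons α a) (by
          intro i
          refine Fin.cases ?_ (fun i => ?_) i
          · rw [Fin.cons_zero]
            exact ⟨hα, hαε⟩
          · rw [Fin.cons_succ]
            exact ⟨(ha i).1, hll i⟩)
        induction i using Fin.cases with
        | zero =>
          induction j using Fin.cases with
          | zero => exact absurd rfl hij
          | succ j =>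
            rw [Fin.cons_zero, Fin.cons_succ] at hc
            exact absurd hc (hnc j)
        | succ i =>
          induction j using Fin.cases with
          | zero =>
            rw [Fin.cons_zero, Fin.cons_succ] at hc
            exact absurd (hL2 _ _ _ hc) (hnc i)
          | succ j =>
            rw [Fin.cons_succ, Fin.cons_succ] at hc
            exact ⟨i, j, fun h => hij (by rw [h]), hc⟩
      obtain ⟨σ', ρ', κ', k', hS', hd', hl'⟩ := ih (ε / 2) σ₁ ρ₁ κ₁ k₁ (by linarith)
        (by linarith) (by linarith) hS₁ hSh₁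
      refine ⟨σ', ρ', κ', k', hS', ?_, ?_⟩
      · refine ((hSY _ U).2 ρ ρ₁ ρ').trans ?_
        refine (add_le_add hd₁ hd').trans ?_
        rw [← ENNReal.ofReal_add hD (by positivity)]
        apply ENNReal.ofReal_le_ofReal
        push_cast
        linarith
      · intro β hβ
        refine le_trans (le_of_eq ?_) (hl' β hβ)
        rw [pow_succ, div_div, mul_comm]

end Pool.Agent.Helper64.QP2
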